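import Pool.Agent.H33.HC.TB
import Pool.Agent.H99.HH.GRA

/-!
# Smooth sums over the `γ`, complex values
-/

set_option autoImplicit false

open NumberField Complex Filter Topology MeasureTheory
open scoped ContDiff nonZeroDivisors

namespace Pool.Agent.H50.HC

open Pool.Agent.H28.RC Pool.Agent.H37.CV Pool.Agent.H33.HH Pool.Agent.H33.HC

theorem fderiv_part (L : ℂ →L[ℝ] ℝ) (hL : ‖L‖ ≤ 1) (F : ℂ → ℂ) (hF : ContDiff ℝ ∞ F) (j : ℕ)
    (M : ℝ) (hM : ∀ z, ‖iteratedFDeriv ℝ j F z‖ ≤ M) (z : ℂ) :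
    ‖iteratedFDeriv ℝ j (fun z => L (F z)) z‖ ≤ M := by
  have h1 : iteratedFDeriv ℝ j (L ∘ F) z =
      L.compContinuousMultilinearMap (iteratedFDeriv ℝ j F z) :=
    L.iteratedFDeriv_comp_left hF.contDiffAt (by exact_mod_cast le_top)
  have h2 : (fun z => L (F z)) = L ∘ F := rfl
  rw [h2, h1]
  refine (L.norm_compContinuousMultilinearMap_le _).trans ?_
  calc ‖L‖ * ‖iteratedFDeriv ℝ j F z‖ ≤ 1 * ‖iteratedFDeriv ℝ j F z‖ :=
        mul_le_mul_of_nonneg_right hL (norm_nonneg _)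
    _ ≤ M := by rw [one_mul]; exact hM z

theorem summable_Ga {K : Type} [Field K] [NumberField K] [IQ K] {P R : ℝ} (F : ℂ → ℂ)
    {a b l : Ideal (𝓞 K)} (hR : 0 < R) (hF : ∀ z, 1 < ‖z‖ → F z = 0) (hb : b ≠ ⊥) :
    Summable (fun γ : Ga P a b l => F ((em K γ.1 - 1) / R)) := by
  refine summable_of_hasFiniteSupport ?_
  have hfin := Pool.Agent.H99.HH.fin_disc (a := a) hb R
  refine Set.Finite.of_finite_image (f := Subtype.val) (hfin.subset ?_)
    Subtype.val_injective.injOn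
  rintro _ ⟨γ, hγ, rfl⟩
  refine ⟨?_, ?_⟩
  · obtain ⟨m, -, -, hm⟩ := γ.2.1
    exact (Pool.Agent.H99.HH.mem_qf hb γ.1).2 ⟨m, hm⟩
  · by_contra hlt
    refine hγ (hF _ ?_)
    rw [norm_div, Complex.norm_real, Real.norm_eq_abs, abs_of_pos hR, one_lt_div hR]
    exact not_le.1 hlt

/-- Row GSMC. -/
theorem pf_GSMC (h : Pool.Agent.H33.HH.T_GSM) : T_GSMC := by
  intro K _ _ _ P j hSP hj
  obtain ⟨C, hC, hG⟩ := h K P j hSP hj
  refine ⟨2 * C, by positivity, ?_⟩
  intro y hy S hS b k l hb hbc hk hl R M F hR hcond hF hF0 hFM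
  have g1 := hG y hy S hS b k l hb hbc hk hl R M (fun z => (F z).re) hR hcond
    (Complex.reCLM.contDiff.comp hF) (fun z hz => by rw [hF0 z hz, Complex.zero_re])
    (fderiv_part Complex.reCLM Complex.reCLM_norm.le F hF j M hFM)
  have g2 := hG y hy S hS b k l hb hbc hk hl R M (fun z => (F z).im) hR hcond
    (Complex.imCLM.contDiff.comp hF) (fun z hz => by rw [hF0 z hz, Complex.zero_im])
    (fderiv_part Complex.imCLM Complex.imCLM_norm.le F hF j M hFM)
  have hsum : Summable (fun γ : Ga P (idS S) b (k * l) => F ((em K γ.1 - 1) / R)) :=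
    summable_Ga F hR hF0 hb
  have hint : Integrable F := by
    apply hF.continuous.integrable_of_hasCompactSupport
    apply HasCompactSupport.of_support_subset_isCompact (isCompact_closedBall (0 : ℂ) 1)
    intro z hz
    rw [mem_closedBall_zero_iff]
    by_contra hlt
    exact hz (hF0 z (not_le.1 hlt))
  set c : ℝ := gs P S b k l * (2 / sd K) * (nm b / (nS np S * nm k * nm l)) with hc
  set T := ∑' γ : Ga P (idS S) b (k * l), F ((em K γ.1 - 1) / R) with hT
  have hTre : T.re = ∑' γ : Ga P (idS S) b (k * l), (F ((em K γ.1 - 1) / R)).re :=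
    Complex.re_tsum hsum
  have hTim : T.im = ∑' γ : Ga P (idS S) b (k * l), (F ((em K γ.1 - 1) / R)).im :=
    Complex.im_tsum hsum
  have hIre : (∫ z, F z).re = ∫ z, (F z).re := (integral_re hint).symm
  have hIim : (∫ z, F z).im = ∫ z, (F z).im := (integral_im hint).symm
  refine (Complex.norm_le_abs_re_add_abs_im _).trans ?_
  have e1 : (T - ((c * R ^ 2 : ℝ) : ℂ) * ∫ z, F z).re =
      (∑' γ : Ga P (idS S) b (k * l), (F ((em K γ.1 - 1) / R)).re) -
        c * (R ^ 2 * ∫ z, (F z).re) := by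
    rw [Complex.sub_re, Complex.re_ofReal_mul, hTre, hIre, mul_assoc]
  have e2 : (T - ((c * R ^ 2 : ℝ) : ℂ) * ∫ z, F z).im =
      (∑' γ : Ga P (idS S) b (k * l), (F ((em K γ.1 - 1) / R)).im) -
        c * (R ^ 2 * ∫ z, (F z).im) := by
    rw [Complex.sub_im, Complex.im_ofReal_mul, hTim, hIim, mul_assoc]
  rw [e1, e2]
  calc _ ≤ C * M * (R ^ 2 * nm b / (nS np S * nm k * nm l)) ^ (1 - (j : ℝ) / 2) +
        C * M * (R ^ 2 * nm b / (nS np S * nm k * nm l)) ^ (1 - (j : ℝ) / 2) := add_le_add g1 g2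
    _ = _ := by ring

end Pool.Agent.H50.HC
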