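import Pool.Agent.H33.HC.TA

/-!
# The bound of the regularised Mellin transform
-/

set_option autoImplicit false

open NumberField Complex Filter Topology MeasureTheory
open scoped ContDiff nonZeroDivisors

namespace Pool.Agent.H50.HC

open Pool.Agent.H28.RC Pool.Agent.H37.CV Pool.Agent.H33.HH Pool.Agent.H33.HC

theorem norm_pw (v : ℝ) (hv : 0 < v) (w : ℂ) :
    ‖(v : ℂ) ^ (-1 - w)‖ = v ^ (-1 - w.re) := by
  rw [Complex.norm_cpow_eq_rpow_re_of_pos hv]
  simp

/-- Row LWB. -/
theorem pf_LWB : T_LWB := by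
  refine ⟨11, by norm_num, ?_⟩
  intro f f' A w hA hf hw
  have hre : |w.re| ≤ 1 / 16 := (Complex.abs_re_le_norm w).trans hw
  obtain ⟨hre1, hre2⟩ := abs_le.1 hre
  have h1 : ‖∫ v in Set.Ioc (0 : ℝ) 1, (f v - 1) * (v : ℂ) ^ (-1 - w)‖ ≤
      ∫ v in Set.Ioc (0 : ℝ) 1, A * v ^ (-(13 / 16) : ℝ) := by
    apply norm_integral_le_of_norm_le
    · apply Integrable.const_mul
      have := intervalIntegral.intervalIntegrable_rpow' (a := 0) (b := 1)
        (r := (-(13 / 16) : ℝ)) (by norm_num)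
      rw [intervalIntegrable_iff_integrableOn_Ioc_of_le zero_le_one] at this
      exact this
    · refine (ae_restrict_iff' measurableSet_Ioc).2 (Filter.Eventually.of_forall ?_)
      intro v hv
      obtain ⟨hv0, hv1⟩ := hv
      rw [norm_mul, norm_pw v hv0]
      have e1 := (hf.n1 v hv0 hv1).1
      rw [div_one] at e1
      have e2 : v ^ (-1 - w.re) ≤ v ^ (-(17 / 16) : ℝ) :=
        Real.rpow_le_rpow_of_exponent_ge hv0 hv1 (by linarith)
      calc ‖f v - 1‖ * v ^ (-1 - w.re) ≤ (A * v ^ (1 / 4 : ℝ)) * v ^ (-(17 / 16) : ℝ) := by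
            apply mul_le_mul e1 e2 (by positivity) (by positivity)
        _ = A * v ^ (-(13 / 16) : ℝ) := by
            rw [mul_assoc, ← Real.rpow_add hv0]
            norm_num
  have h2 : ‖∫ v in Set.Ioi (1 : ℝ), f v * (v : ℂ) ^ (-1 - w)‖ ≤
      ∫ v in Set.Ioi (1 : ℝ), A * v ^ (-(19 / 16) : ℝ) := by
    apply norm_integral_le_of_norm_le
    · apply Integrable.const_mul
      exact integrableOn_Ioi_rpow_of_lt (by norm_num) zero_lt_one
    · refine (ae_restrict_iff' measurableSet_Ioi).2 (Filter.Eventually.of_forall ?_)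
      intro v hv
      have hv1 : 1 < v := hv
      have hv0 : 0 < v := by linarith
      rw [norm_mul, norm_pw v hv0]
      have e1 := (hf.n2 v hv1.le).1
      rw [div_one] at e1
      have e2 : v ^ (-1 - w.re) ≤ v ^ (-(15 / 16) : ℝ) :=
        Real.rpow_le_rpow_of_exponent_le hv1.le (by linarith)
      calc ‖f v‖ * v ^ (-1 - w.re) ≤ (A * v ^ (-(1 / 4) : ℝ)) * v ^ (-(15 / 16) : ℝ) := by
            apply mul_le_mul e1 e2 (by positivity) (by positivity)
        _ = A * v ^ (-(19 / 16) : ℝ) := by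
            rw [mul_assoc, ← Real.rpow_add hv0]
            norm_num
  have i1 : ∫ v in Set.Ioc (0 : ℝ) 1, A * v ^ (-(13 / 16) : ℝ) = A * (16 / 3) := by
    rw [MeasureTheory.integral_const_mul, ← intervalIntegral.integral_of_le zero_le_one,
      integral_rpow (Or.inl (by norm_num))]
    norm_num
  have i2 : ∫ v in Set.Ioi (1 : ℝ), A * v ^ (-(19 / 16) : ℝ) = A * (16 / 3) := by
    rw [MeasureTheory.integral_const_mul, integral_Ioi_rpow_of_lt (by norm_num) zero_lt_one]
    norm_num
  rw [i1] at h1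
  rw [i2] at h2
  unfold Lw
  refine (norm_add_le _ _).trans ?_
  linarith

end Pool.Agent.H50.HC
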